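import Pool.Agent.Lib.MP_e962e1_co.Core

set_option autoImplicit false

open Polynomial

namespace Pool.E962e1

section defs
variable {α : Type}

/-- The rank of a set in a matroid, as a natural number. -/
noncomputable def rank (M : Matroid α) (X : Set α) : ℕ := (M.eRk X).toNat

/-- A geometry: a matroid with finitely many points, no loops and no parallel pairs. -/
def IsGeometry (M : Matroid α) : Prop :=
  M.E.Finite ∧ ∀ e ∈ M.E, ∀ f ∈ M.E, M.Indep {e, f}

/-- Representable over `GF(2)`. -/
def IsBinary (M : Matroid α) : Prop :=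
  ∃ (m : ℕ) (v : α → Fin m → ZMod 2), ∀ I ⊆ M.E, M.Indep I ↔ LinearIndepOn (ZMod 2) v I

/-- The poset of flats, ordered by inclusion. -/
abbrev Flat (M : Matroid α) : Type := {F : Set α // M.IsFlat F}

/-- The least flat (the closure of the empty set). -/
def botFlat (M : Matroid α) : Flat M := ⟨M.closure ∅, M.isFlat_closure ∅⟩

open Classical in
/-- The Moebius function of the poset of flats. -/
noncomputable def moebius [Finite α] (M : Matroid α) (F G : Flat M) : ℤ :=
  letI : Fintype (Flat M) := Fintype.ofFinite _
  letI : LocallyFiniteOrder (Flat M) := Fintype.toLocallyFiniteOrder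
  IncidenceAlgebra.mu ℤ F G

/-- The characteristic polynomial: the sum over all flats `F` of
`μ(∅, F) λ ^ (r(M) - r(F))`. -/
noncomputable def charPoly [Finite α] (M : Matroid α) : ℤ[X] :=
  ∑ᶠ F : Flat M, C (moebius M (botFlat M) F) * X ^ (rank M M.E - rank M F)

/-- Modular flats. -/
def IsModularFlat (M : Matroid α) (F : Set α) : Prop :=
  M.IsFlat F ∧ ∀ Y, M.IsFlat Y →
    rank M F + rank M Y = rank M (M.closure (F ∪ Y)) + rank M (F ∩ Y)

/-- Supersolvable: there is a chain `∅ = X 0 ⊂ X 1 ⊂ ... ⊂ X n = E`, `n` the rank, of modular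
flats. -/
def IsSupersolvable (M : Matroid α) : Prop :=
  ∃ X : ℕ → Set α, X 0 = M.closure ∅ ∧ X (rank M M.E) = M.E ∧
    (∀ i < rank M M.E, X i ⊂ X (i + 1)) ∧ ∀ i ≤ rank M M.E, IsModularFlat M (X i)

end defs

section whitney

variable {α : Type} [Finite α]

open Classical in
/-- The signed count of the spanning subsets of a flat. -/
private noncomputable def nu (M : Matroid α) (S : Finset α) (F : Set α) : ℤ :=
  ∑ A ∈ S.powerset.filter (fun A : Finset α => M.closure (A : Set α) = F), (-1) ^ A.card

omit [Finite α] in
open Classical in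
private lemma sum_nu (M : Matroid α) (S : Finset α) (hS : (S : Set α) = M.E)
    [Fintype (Flat M)] [LocallyFiniteOrder (Flat M)] (F : Flat M)
    (h0 : M.closure ∅ = ∅) :
    ∑ G ∈ Finset.Icc (botFlat M) F, nu M S G = if botFlat M = F then 1 else 0 := by
  have key : ∑ G ∈ Finset.Icc (botFlat M) F, nu M S G =
      ∑ A ∈ (S.filter (fun x => x ∈ (F : Set α))).powerset, (-1 : ℤ) ^ A.card := by
    rw [← Finset.sum_fiberwise_of_maps_to (t := Finset.Icc (botFlat M) F)
      (g := fun A : Finset α => (⟨M.closure (A : Set α), M.isFlat_closure _⟩ : Flat M))]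
    · apply Finset.sum_congr rfl
      intro G hG
      unfold nu
      apply Finset.sum_congr _ (fun _ _ => rfl)
      ext A
      have hGF : (G : Set α) ⊆ F := (Finset.mem_Icc.mp hG).2
      simp only [Finset.mem_filter, Finset.mem_powerset, Subtype.ext_iff]
      constructor
      · rintro ⟨hA, hc⟩
        refine ⟨fun x hx => ?_, hc⟩
        rw [Finset.mem_filter]
        refine ⟨hA hx, hGF ?_⟩
        rw [← hc]
        have : (A : Set α) ⊆ M.E := by rw [← hS]; exact_mod_cast hA
        exact M.subset_closure (A : Set α) this (by exact_mod_cast hx)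
      · rintro ⟨hA, hc⟩
        exact ⟨fun x hx => (Finset.mem_filter.mp (hA hx)).1, hc⟩
    · intro A hA
      rw [Finset.mem_powerset] at hA
      rw [Finset.mem_Icc]
      constructor
      · exact M.closure_subset_closure (Set.empty_subset _)
      · have h1 : (A : Set α) ⊆ F := fun x hx => (Finset.mem_filter.mp (hA hx)).2
        have h2 := M.closure_subset_closure h1
        rw [F.2.closure] at h2
        exact h2
  rw [key, Finset.sum_powerset_neg_one_pow_card]
  congr 1
  rw [eq_iff_iff, Finset.filter_eq_empty_iff]
  constructor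
  · intro h
    apply Subtype.ext
    change M.closure ∅ = (F : Set α)
    rw [h0]
    symm
    rw [Set.eq_empty_iff_forall_notMem]
    intro x hx
    have hxE := F.2.subset_ground hx
    rw [← hS] at hxE
    exact h (by exact_mod_cast hxE) hx
  · intro h x _ hx
    rw [← h] at hx
    change x ∈ M.closure ∅ at hx
    rw [h0] at hx
    exact hx

open Classical in
private lemma moebius_eq (M : Matroid α) (S : Finset α) (hS : (S : Set α) = M.E)
    (h0 : M.closure ∅ = ∅) (F : Flat M) : moebius M (botFlat M) F = nu M S F := by
  unfold moebius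
  let i1 : Fintype (Flat M) := Fintype.ofFinite _
  let i2 : LocallyFiniteOrder (Flat M) := Fintype.toLocallyFiniteOrder
  have hwf : WellFoundedLT (Flat M) := Finite.to_wellFoundedLT
  induction F using hwf.induction with
  | ind F ih =>
    have hs := sum_nu M S hS F h0
    have hle : botFlat M ≤ F := by
      have := M.closure_subset_closure (Set.empty_subset (F : Set α))
      rw [F.2.closure] at this
      exact this
    rw [← Finset.Ico_insert_right hle, Finset.sum_insert Finset.right_notMem_Ico] at hs
    rw [IncidenceAlgebra.mu_apply]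
    have h1 : ∑ x ∈ Finset.Ico (botFlat M) F, IncidenceAlgebra.mu ℤ (botFlat M) x =
        ∑ x ∈ Finset.Ico (botFlat M) F, nu M S x := by
      apply Finset.sum_congr rfl
      intro x hx
      exact ih x (Finset.mem_Ico.mp hx).2
    by_cases hb : botFlat M = F
    · rw [if_pos hb] at hs ⊢
      have : Finset.Ico (botFlat M) F = ∅ := by rw [hb]; exact Finset.Ico_self F
      rw [this, Finset.sum_empty, add_zero] at hs
      exact hs.symm
    · rw [if_neg hb] at hs ⊢
      rw [h1]
      linarith

open Classical in
/-- Whitney's formula. -/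
theorem charPoly_eq (M : Matroid α) (S : Finset α) (hS : (S : Set α) = M.E)
    (h0 : M.closure ∅ = ∅) :
    charPoly M = ∑ A ∈ S.powerset, (-1 : ℤ[X]) ^ A.card *
      X ^ (rank M M.E - rank M (A : Set α)) := by
  unfold charPoly
  let i1 : Fintype (Flat M) := Fintype.ofFinite _
  rw [finsum_eq_sum_of_fintype]
  rw [← Finset.sum_fiberwise_of_maps_to (s := S.powerset) (t := Finset.univ)
      (g := fun A : Finset α => (⟨M.closure (A : Set α), M.isFlat_closure _⟩ : Flat M))
      (fun _ _ => Finset.mem_univ _)]
  apply Finset.sum_congr rfl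
  intro F _
  rw [moebius_eq M S hS h0, nu, map_sum, Finset.sum_mul]
  apply Finset.sum_congr
  · ext A
    simp only [Finset.mem_filter, Subtype.ext_iff]
  · intro A hA
    have hc : M.closure (A : Set α) = F := congrArg Subtype.val (Finset.mem_filter.mp hA).2
    have : rank M (A : Set α) = rank M (F : Set α) := by
      unfold rank
      rw [← hc, M.eRk_closure_eq]
    rw [this]
    simp

end whitney


section linear

/-- independent sets of vectors in `S` -/
private def ind (S : Finset V) (I : Set V) : Prop := I ⊆ S ∧ LinearIndepOn (ZMod 2) id I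

private lemma fr_le {A B : Submodule (ZMod 2) V} (h : A ≤ B) :
    Module.finrank (ZMod 2) A ≤ Module.finrank (ZMod 2) B := Submodule.finrank_mono h

private lemma rk_indep {I : Set V} (h : LinearIndepOn (ZMod 2) id I) : rk I = I.ncard := by
  classical
  have : Fintype I := Fintype.ofFinite I
  rw [rk, finrank_span_set_eq_card h, Set.ncard_eq_toFinset_card']

/-- The linear matroid on a finite set of vectors. -/
noncomputable def linM (S : Finset V) : Matroid V :=
  (IndepMatroid.ofFinite S.finite_toSet (ind S)
    ⟨Set.empty_subset _, linearIndepOn_empty _ _⟩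
    (fun _ _ hJ hIJ => ⟨hIJ.trans hJ.1, hJ.2.mono hIJ⟩)
    (by
      intro I J hI hJ hlt
      by_contra hcon
      push Not at hcon
      have h1 : ∀ e ∈ J, e ∈ Submodule.span (ZMod 2) I := by
        intro e he
        by_contra hsp
        have heI : e ∉ I := fun h => hsp (Submodule.subset_span h)
        refine hcon e he heI ⟨Set.insert_subset (hJ.1 he) hI.1, ?_⟩
        exact hI.2.id_insert hsp
      have h2 : rk J ≤ rk I := fr_le (Submodule.span_le.mpr h1)
      rw [rk_indep hI.2, rk_indep hJ.2] at h2
      omega)
    (fun _ hI => hI.1)).matroid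

theorem linM_E (S : Finset V) : (linM S).E = S := rfl

theorem linM_indep (S : Finset V) (I : Set V) :
    (linM S).Indep I ↔ I ⊆ S ∧ LinearIndepOn (ZMod 2) id I := Iff.rfl

private lemma basis_span {S : Finset V} {I X : Set V} (h : (linM S).IsBasis I X) :
    Submodule.span (ZMod 2) I = Submodule.span (ZMod 2) X := by
  apply le_antisymm (Submodule.span_mono h.subset)
  rw [Submodule.span_le]
  intro x hx
  by_contra hsp
  have heI : x ∉ I := fun h => hsp (Submodule.subset_span h)
  have h1 : (linM S).Indep (insert x I) := by
    rw [linM_indep]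
    have hI := (linM_indep S I).mp h.indep
    exact ⟨Set.insert_subset (h.subset_ground hx) hI.1, hI.2.id_insert hsp⟩
  exact heI (h.mem_of_insert_indep hx h1)

theorem linM_rank {S : Finset V} {X : Set V} (hX : X ⊆ S) : rank (linM S) X = rk X := by
  obtain ⟨I, hI⟩ := (linM S).exists_isBasis X hX
  have h1 : (linM S).eRk X = I.encard := hI.eRk_eq_encard
  have h2 := rk_indep ((linM_indep S I).mp hI.indep).2
  have h3 : rk X = rk I := by unfold rk; rw [basis_span hI]
  rw [rank, h1, h3, h2]
  rfl

theorem linM_closure {S : Finset V} {X : Set V} (hX : X ⊆ S) :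
    (linM S).closure X = (S : Set V) ∩ Submodule.span (ZMod 2) X := by
  obtain ⟨I, hI⟩ := (linM S).exists_isBasis X hX
  rw [← hI.closure_eq_closure, ← basis_span hI]
  ext x
  constructor
  · intro hx
    have hxS : x ∈ (S : Set V) := (linM S).mem_ground_of_mem_closure hx
    refine ⟨hxS, ?_⟩
    by_contra hsp
    have heI : x ∉ I := fun h => hsp (Submodule.subset_span h)
    rw [hI.indep.mem_closure_iff] at hx
    rcases hx with hx | hx
    · apply hx.not_indep
      rw [linM_indep]
      have hI' := (linM_indep S I).mp hI.indep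
      exact ⟨Set.insert_subset hxS hI'.1, hI'.2.id_insert hsp⟩
    · exact heI hx
  · rintro ⟨hxS, hsp⟩
    rw [hI.indep.mem_closure_iff]
    by_cases heI : x ∈ I
    · exact Or.inr heI
    · left
      rw [Matroid.dep_iff]
      refine ⟨fun hc => ?_, Set.insert_subset hxS ((linM_indep S I).mp hI.indep).1⟩
      have := ((linM_indep S _).mp hc).2
      rw [linearIndepOn_id_insert heI] at this
      exact this.2 hsp

end linear

end Pool.E962e1
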