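import Pool.Agent.Lib.MP_e962e1_co.Geom

set_option autoImplicit false

open Polynomial Pool.E962e1

namespace Pool.Agent.Results.MP_e962e1_co.NoModularCopoint

private noncomputable abbrev S0 : Finset V := SV.toFinset

private lemma zero_notMem : (0 : V) ∉ S0 := by decide +kernel

private lemma closure_empty : (linM S0).closure ∅ = ∅ := by
  rw [linM_closure (Set.empty_subset _), Submodule.span_empty]
  ext x
  simp only [Set.mem_inter_iff, SetLike.mem_coe, Submodule.mem_bot, Set.mem_empty_iff_false,
    iff_false, not_and]
  rintro hx rfl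
  exact zero_notMem (by exact_mod_cast hx)

private lemma geometry : IsGeometry (linM S0) := by
  refine ⟨S0.finite_toSet, ?_⟩
  intro e he f hf
  rw [linM_E] at he hf
  rw [linM_indep]
  refine ⟨Set.insert_subset he (Set.singleton_subset_iff.mpr hf), ?_⟩
  have hne : ∀ x : V, x ∈ (S0 : Set V) → x ≠ 0 := by
    rintro x hx rfl
    exact zero_notMem (by exact_mod_cast hx)
  have hcase : ∀ z : ZMod 2, z = 0 ∨ z = 1 := by decide
  have h1 : LinearIndepOn (ZMod 2) id ({f} : Set V) :=
    LinearIndepOn.singleton (v := id) (hne f hf)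
  by_cases hef : e = f
  · subst hef
    rw [Set.insert_eq_of_mem (Set.mem_singleton e)]
    exact h1
  · apply h1.id_insert
    rw [Submodule.mem_span_singleton]
    rintro ⟨a, ha⟩
    rcases hcase a with rfl | rfl
    · rw [zero_smul] at ha
      exact hne e he ha.symm
    · rw [one_smul] at ha
      exact hef ha.symm

private lemma binary : IsBinary (linM S0) := by
  refine ⟨6, id, fun I hI => ?_⟩
  rw [linM_indep]
  exact ⟨fun h => h.2, fun h => ⟨hI, h⟩⟩

private lemma ground_card : (linM S0).E.ncard = 21 := by
  rw [linM_E, Set.ncard_coe_finset, List.toFinset_card_of_nodup SV_nodup]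
  decide +kernel

private lemma rank_ground : rank (linM S0) (linM S0).E = 6 := by
  rw [linM_E, linM_rank (le_refl _), rk, span_top, finrank_top]
  simp

private lemma charPoly_linM : charPoly (linM S0) =
    ∏ i ∈ Finset.range 6, (X - C ((i : ℤ) + 1)) := by
  rw [charPoly_eq (linM S0) S0 rfl closure_empty, ← charpoly]
  apply Finset.sum_congr rfl
  intro A hA
  rw [linM_E, linM_rank (le_refl _), linM_rank (by exact_mod_cast Finset.mem_powerset.mp hA)]
  rfl

/-- two flats of the linear matroid with the same rank, one inside the other, are equal -/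
private lemma flat_eq {F G : Set V} (hF : (linM S0).IsFlat F) (hG : (linM S0).IsFlat G)
    (h : F ⊆ G) (hr : rank (linM S0) G ≤ rank (linM S0) F) : F = G := by
  have hFS : F ⊆ (S0 : Set V) := hF.subset_ground
  have hGS : G ⊆ (S0 : Set V) := hG.subset_ground
  rw [linM_rank hFS, linM_rank hGS] at hr
  have hs : Submodule.span (ZMod 2) F = Submodule.span (ZMod 2) G :=
    Submodule.eq_of_le_of_finrank_le (Submodule.span_mono h) hr
  rw [← hF.closure, ← hG.closure, linM_closure hFS, linM_closure hGS, hs]

private lemma no_copoint (F : Set V) (hF : IsModularFlat (linM S0) F) :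
    rank (linM S0) F ≠ 5 := by
  intro hr
  have hFS : F ⊆ (S0 : Set V) := hF.1.subset_ground
  have hfin : Module.finrank (ZMod 2) (Submodule.span (ZMod 2) F) = 5 := by
    rw [linM_rank hFS] at hr; exact hr
  have hlt : Submodule.span (ZMod 2) F < ⊤ := by
    rw [lt_top_iff_ne_top]
    intro htop
    rw [htop, finrank_top] at hfin
    simp at hfin
  obtain ⟨f, hf0, hf⟩ := Submodule.exists_le_ker_of_lt_top _ hlt
  set h : Fin 6 → ZMod 2 := fun i => f (Pi.single i 1) with hh
  have hfx : ∀ x : V, f x = ∑ i, h i * x i := by
    intro x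
    conv_lhs => rw [← Finset.univ_sum_single x]
    rw [map_sum]
    apply Finset.sum_congr rfl
    intro i _
    have : (Pi.single i (x i) : V) = x i • Pi.single i 1 := by
      rw [← Pi.single_smul, smul_eq_mul, mul_one]
    rw [this, map_smul, smul_eq_mul, mul_comm]
  have hne : h ≠ 0 := by
    intro hz
    apply hf0
    ext1 i
    ext
    have := congrFun hz i
    simpa [hh] using this
  obtain ⟨a, ha, b, hb, fa, fb, hab, habS⟩ := no_modular h hne
  rw [← hfx] at fa fb
  have haS : a ∈ (S0 : Set V) := by simpa using ha
  have hbS : b ∈ (S0 : Set V) := by simpa using hb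
  have hsub : ({a, b} : Set V) ⊆ (S0 : Set V) :=
    Set.insert_subset haS (Set.singleton_subset_iff.mpr hbS)
  -- elements of the span
  have hmem : ∀ x ∈ (S0 : Set V), x ∈ Submodule.span (ZMod 2) ({a, b} : Set V) →
      x = a ∨ x = b := by
    intro x hxS hxU
    obtain ⟨s, t, rfl⟩ := Submodule.mem_span_pair.mp hxU
    have hcase : ∀ z : ZMod 2, z = 0 ∨ z = 1 := by decide
    rcases hcase s with rfl | rfl <;> rcases hcase t with rfl | rfl
    · exfalso
      apply zero_notMem
      have : (0 : ZMod 2) • a + (0 : ZMod 2) • b = 0 := by simp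
      rw [this] at hxS
      exact_mod_cast hxS
    · right; simp
    · left; simp
    · exfalso
      have : (1 : ZMod 2) • a + (1 : ZMod 2) • b = a + b := by simp
      rw [this] at hxS
      apply habS
      have : a + b ∈ S0 := by exact_mod_cast hxS
      simpa using this
  have hY : (linM S0).closure ({a, b} : Set V) = {a, b} := by
    rw [linM_closure hsub]
    ext x
    constructor
    · rintro ⟨hxS, hxU⟩
      rcases hmem x hxS hxU with rfl | rfl
      · exact Set.mem_insert _ _
      · exact Set.mem_insert_of_mem _ rfl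
    · intro hx
      exact ⟨hsub hx, Submodule.subset_span hx⟩
  have hYflat : (linM S0).IsFlat ({a, b} : Set V) := by
    rw [← hY]; exact (linM S0).isFlat_closure _
  have key := hF.2 _ hYflat
  have hempty : F ∩ ({a, b} : Set V) = ∅ := by
    ext x
    simp only [Set.mem_inter_iff, Set.mem_empty_iff_false, iff_false, not_and]
    intro hxF hx
    have hx0 : f x = 0 := by
      have := hf (Submodule.subset_span hxF)
      simpa using this
    rcases hx with rfl | hx
    · rw [fa] at hx0; exact one_ne_zero hx0
    · have hx' : x = b := hx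
      subst hx'
      rw [fb] at hx0; exact one_ne_zero hx0
  have hr2 : rank (linM S0) ({a, b} : Set V) = 2 := by
    have h1 : (linM S0).Indep {a, b} := geometry.2 a haS b hbS
    have h2 : ({a, b} : Set V).ncard = 2 := Set.ncard_pair hab
    rw [rank, h1.eRk_eq_encard]
    exact h2
  have hr0 : rank (linM S0) (∅ : Set V) = 0 := by
    rw [rank, (linM S0).eRk_empty]; rfl
  have hle : rank (linM S0) ((linM S0).closure (F ∪ {a, b})) ≤ 6 := by
    have h1 : (linM S0).closure (F ∪ {a, b}) ⊆ (S0 : Set V) := (linM S0).closure_subset_ground _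
    rw [linM_rank h1]
    refine le_trans (Submodule.finrank_le _) ?_
    simp
  rw [hempty, hr, hr2, hr0] at key
  omega

private lemma not_supersolvable : ¬ IsSupersolvable (linM S0) := by
  rintro ⟨X, h0, h6, hlt, hmod⟩
  rw [rank_ground] at h6 hlt hmod
  have hstep : ∀ i < 6, rank (linM S0) (X i) < rank (linM S0) (X (i + 1)) := by
    intro i hi
    by_contra hcon
    push Not at hcon
    have := flat_eq (hmod i (by omega)).1 (hmod (i + 1) (by omega)).1 (hlt i hi).1 hcon
    exact (hlt i hi).ne this
  have hlast : rank (linM S0) (X 6) = 6 := by rw [h6, rank_ground]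
  have a0 := hstep 0 (by norm_num)
  have a1 := hstep 1 (by norm_num)
  have a2 := hstep 2 (by norm_num)
  have a3 := hstep 3 (by norm_num)
  have a4 := hstep 4 (by norm_num)
  have a5 := hstep 5 (by norm_num)
  norm_num at a0 a1 a2 a3 a4 a5
  exact no_copoint (X 5) (hmod 5 (by norm_num)) (by omega)

/-- There is a binary geometry of rank 6 with 21 points whose characteristic polynomial is
`(λ - 1)(λ - 2) ⋯ (λ - 6)`, which has no modular copoint and is not supersolvable. -/
theorem result : ∃ M : Matroid (Fin 6 → ZMod 2), IsGeometry M ∧ IsBinary M ∧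
    M.E.ncard = 21 ∧ rank M M.E = 6 ∧
    charPoly M = ∏ i ∈ Finset.range 6, (X - C ((i : ℤ) + 1)) ∧
    (∀ F, IsModularFlat M F → rank M F ≠ 5) ∧ ¬ IsSupersolvable M :=
  ⟨linM S0, geometry, binary, ground_card, rank_ground, charPoly_linM, no_copoint,
    not_supersolvable⟩

end Pool.Agent.Results.MP_e962e1_co.NoModularCopoint
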